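import Pool.Agent.H854R3.CR.ExistsMain

/-!
Further properties of the infinite critical associative ring of `Pool.Agent.H854R3.CR`.
-/

set_option autoImplicit false

namespace Pool.Agent.Y105.CR

open Pool.Agent.H854R3.CR Pool.Agent.H854R3.NE

variable {R : Type} [NonUnitalRing R]

theorem exists_strong (hF : TaskF) (hP : TaskP) (X Y : R) (h : RingQ R X Y) :
    ∃ (S : Type) (_ : NonUnitalRing S), Infinite S ∧ Critical S ∧
      (∃ X Y : S, NonUnitalSubring.closure ({X, Y} : Set S) = ⊤) ∧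
      (∀ r : S, 4 • r = 0) ∧ (∀ a b c : S, 2 • (a * b * c) = 0) ∧
      (∀ (T : Type) [NonUnitalRing T], ProperFactor T S → ∀ u v : T, 2 • (u * v - v * u) = 0) ∧
      (∀ u v : S, 2 • (u * v - v * u) ≠ 0 → NonUnitalSubring.closure ({u, v} : Set S) = ⊤) ∧
      (∃ z : S, z ≠ 0 ∧ (∀ I : TwoSidedIdeal S, I ≠ ⊥ → z ∈ I) ∧ ∀ n, z ∈ Pw S n) ∧
      (∀ (T : Type) [NonUnitalRing T] [Finite T] (f : S →ₙ+* T), Function.Surjective f →
        ∃ n, Pw T n = ⊥) := by
  have hPuv := hP R X Y h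
  obtain ⟨hg, h4, h3, hfr, hne, hpw⟩ := h
  obtain ⟨Q, inst, φ, hφ, hφ0, hIn⟩ := exists_si_quot hne
  have hcomm : ∀ u v : R, φ (2 • (u * v - v * u)) = 2 • (φ u * φ v - φ v * φ u) := by
    intro u v
    rw [map_nsmul, map_sub, map_mul, map_mul]
  -- properties of Q
  have hQ1 : ∀ u v : Q, ∃ k : ℤ, 2 • (u * v - v * u) = k • φ (2 • (X * Y - Y * X)) := by
    intro u v
    obtain ⟨u, rfl⟩ := hφ u
    obtain ⟨v, rfl⟩ := hφ v
    obtain ⟨k, hk⟩ := (hPuv u v).1
    refine ⟨k, ?_⟩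
    rw [← hcomm, hk, map_zsmul]
  have hQ2 : ∀ u v : Q, 2 • (u * v - v * u) ≠ 0 →
      NonUnitalSubring.closure ({u, v} : Set Q) = ⊤ := by
    intro u v huv
    obtain ⟨u, rfl⟩ := hφ u
    obtain ⟨v, rfl⟩ := hφ v
    apply closure_map_top φ hφ
    apply (hPuv u v).2
    intro h0
    apply huv
    rw [← hcomm, h0, map_zero]
  -- finite images are nilpotent
  have hnil : ∀ (T : Type) [NonUnitalRing T] [Finite T] (f : Q →ₙ+* T), Function.Surjective f →
      ∃ n, Pw T n = ⊥ := by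
    intro T _ _ f hf
    have hψ : Function.Surjective (f.comp φ) := hf.comp hφ
    apply hF T (f.comp φ X) (f.comp φ Y)
    intro a ha b hb
    obtain ⟨a', ha', rfl⟩ := lift_Pw (f.comp φ) hψ 1 a ha
    obtain ⟨b', hb', rfl⟩ := lift_Pw (f.comp φ) hψ 1 b hb
    rw [← map_add, ← map_add]
    exact closure_map_top (f.comp φ) hψ _ _ (hfr a' ha' b' hb')
  -- the identity in proper factors
  have hfac : ∀ (S : Type) [NonUnitalRing S], ProperFactor S Q →
      ∀ u v : S, 2 • (u * v - v * u) = 0 := by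
    intro S instS hS s t
    obtain ⟨B, f, hf, hBf⟩ := hS
    obtain ⟨u, rfl⟩ := hf s
    obtain ⟨v, rfl⟩ := hf t
    have h1 : 2 • (f u * f v - f v * f u) = f (2 • (u * v - v * u)) := by
      rw [map_nsmul, map_sub, map_mul, map_mul]
    rw [h1]
    by_cases hB : B = ⊤
    · -- the kernel
      have hinj : ¬ Function.Injective f := by
        rcases hBf with h | h
        · exact absurd hB h
        · exact h
      have hmem : ∀ x : Q, x ∈ B := fun x => by rw [hB]; trivial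
      let I : TwoSidedIdeal Q := TwoSidedIdeal.mk' {x | f ⟨x, hmem x⟩ = 0}
        (map_zero f)
        (by
          intro x y hx hy
          change f (⟨x, hmem x⟩ + ⟨y, hmem y⟩) = 0
          rw [map_add, hx, hy, add_zero])
        (by
          intro x hx
          change f (-⟨x, hmem x⟩) = 0
          rw [map_neg, hx, neg_zero])
        (by
          intro x y hy
          change f (⟨x, hmem x⟩ * ⟨y, hmem y⟩) = 0
          rw [map_mul, hy, mul_zero])
        (by
          intro x y hx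
          change f (⟨x, hmem x⟩ * ⟨y, hmem y⟩) = 0
          rw [map_mul, hx, zero_mul])
      have hI : ∀ x, x ∈ I ↔ f ⟨x, hmem x⟩ = 0 := fun x => TwoSidedIdeal.mem_mk' _ _ _ _ _ _ x
      have hIne : I ≠ ⊥ := by
        intro h0
        apply hinj
        intro x y hxy
        have h2 : f ⟨(x : Q) - y, hmem _⟩ = 0 := by
          have : (⟨(x : Q) - y, hmem _⟩ : B) = x - y := rfl
          rw [this, map_sub, hxy, sub_self]
        have h3 := (hI _).2 h2
        rw [h0, TwoSidedIdeal.mem_bot] at h3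
        exact Subtype.ext (sub_eq_zero.1 h3)
      have h2 := hIn I hIne
      obtain ⟨k, hk⟩ := hQ1 (u : Q) v
      have h3 : (2 • ((u : Q) * v - v * u)) ∈ I := by
        rw [hk]
        exact zsmul_mem_ideal I h2 k
      have h4 := (hI _).1 h3
      exact h4
    · have h2 : 2 • ((u : Q) * v - v * u) = 0 := by
        by_contra hne2
        have h3 := hQ2 _ _ hne2
        apply hB
        rw [eq_top_iff, ← h3, NonUnitalSubring.closure_le]
        rintro x (rfl | hx)
        · exact u.2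
        · rw [Set.mem_singleton_iff] at hx
          subst hx
          exact v.2
      have h3 : (2 • (u * v - v * u) : B) = 0 := Subtype.ext h2
      rw [h3, map_zero]
  refine ⟨Q, inst, ?_, ⟨e2, ?_, ?_⟩, ⟨φ X, φ Y, closure_map_top φ hφ X Y hg⟩, ?_, ?_, hfac, hQ2,
    ⟨_, hφ0, hIn, fun n => map_Pw φ n _ (hpw n)⟩, hnil⟩
  · by_contra hfin
    rw [not_infinite_iff_finite] at hfin
    obtain ⟨n, hn⟩ := hnil Q (NonUnitalRingHom.id Q) Function.surjective_id
    have h1 := map_Pw φ n _ (hpw n)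
    rw [hn, AddSubgroup.mem_bot] at h1
    exact hφ0 h1
  · intro S instS hS
    rw [satisfies_e2]
    exact hfac S hS
  · rw [satisfies_e2]
    intro h
    apply hφ0
    rw [hcomm]
    exact h _ _
  · intro r
    obtain ⟨r, rfl⟩ := hφ r
    rw [← map_nsmul, h4, map_zero]
  · intro a b c
    obtain ⟨a, rfl⟩ := hφ a
    obtain ⟨b, rfl⟩ := hφ b
    obtain ⟨c, rfl⟩ := hφ c
    rw [← map_mul, ← map_mul, ← map_nsmul, h3, map_zero]

theorem main : ∃ (S : Type) (_ : NonUnitalRing S), Infinite S ∧ Critical S ∧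
      (∃ X Y : S, NonUnitalSubring.closure ({X, Y} : Set S) = ⊤) ∧
      (∀ r : S, 4 • r = 0) ∧ (∀ a b c : S, 2 • (a * b * c) = 0) ∧
      (∀ (T : Type) [NonUnitalRing T], ProperFactor T S → ∀ u v : T, 2 • (u * v - v * u) = 0) ∧
      (∀ u v : S, 2 • (u * v - v * u) ≠ 0 → NonUnitalSubring.closure ({u, v} : Set S) = ⊤) ∧
      (∃ z : S, z ≠ 0 ∧ (∀ I : TwoSidedIdeal S, I ≠ ⊥ → z ∈ I) ∧ ∀ n, z ∈ Pw S n) ∧
      (∀ (T : Type) [NonUnitalRing T] [Finite T] (f : S →ₙ+* T), Function.Surjective f →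
        ∃ n, Pw T n = ⊥) := by
  obtain ⟨I, l, c1, c2, c3, c4⟩ := Pool.Agent.H410R3.CRX.core Pool.Agent.H553R3.CR.taskInv
    Pool.Agent.H787R3.CR.taskGS
  obtain ⟨R, inst, π, hπ⟩ := Pool.Agent.H854R3.CR.R1_768.taskR1 I l c1 c2
  exact exists_strong myTaskF Pool.Agent.H462R6.CRP.taskP _ _
    (Pool.Agent.H725R3.CR2.taskR2 I l c1 c2 c3 c4 R π hπ)

end Pool.Agent.Y105.CR
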